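import Pool.Agent.R21.PE.Ex

/-!
# A projective bundle over the plane whose pseudo-effective cone is not simplicial

`E = O(1) ⊕ W` on `P²`, where `W` is the cokernel of `(x₀², x₁², x₂²) : O(-2) → O³`, a vector bundle of
rank two. As a quotient of `O³ ⊕ O³` the bundle `E` of rank three gives `X = P(E)`, of dimension four,
as the closed subvariety of `P² × P⁵` of the points `(x; (y, w))` with `w ∈ K x` and
`∑ xᵢ² yᵢ = 0`, with `O_{P(E)}(1) = O_{P⁵}(1)`. With `h`, `η` the two hyperplane classes, a class in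
`N²(X)`, a space of dimension three, is given by its products with `h²`, `h η`, `η²`.

The classes of the surfaces satisfy `r ≥ 0`, `q ≥ 0`, `a ≥ r`, `q + a ≥ 2 r` (in the case `w = 0` the
inequality `2 a ≥ 4 r + q` comes from the complex `O(-2) → O³ → O(η)` and a maximum principle), and
`A = (0, 0, 1)`, `B = (0, 1, 1)`, `C = (1, 1, 1)`, `D = (1, 2, 0)` are classes of surfaces. So `A`, `C`,
`D` span extremal rays of the pseudo-effective cone and `B` is not a nonnegative combination of them.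
-/

set_option autoImplicit false

open Submodule Set Module

namespace Pool.Agent.Results.MP_f1b239_ag.NotSimplicial

open Pool.Agent.R21.PE

/-- the outer cone -/
def Outer : Submodule NNReal (ℝ × ℝ × ℝ) where
  carrier := {v | 0 ≤ v.1 ∧ 0 ≤ v.2.2 ∧ v.1 ≤ v.2.1 ∧ 2 * v.1 ≤ v.2.2 + v.2.1}
  add_mem' := by
    rintro v w ⟨h1, h2, h3, h4⟩ ⟨k1, k2, k3, k4⟩
    refine ⟨?_, ?_, ?_, ?_⟩ <;> simp only [Prod.fst_add, Prod.snd_add] <;> linarith
  zero_mem' := by simp
  smul_mem' := by
    rintro c v ⟨h1, h2, h3, h4⟩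
    have hc : (0 : ℝ) ≤ c := c.2
    refine ⟨?_, ?_, ?_, ?_⟩ <;>
      simp only [Prod.smul_fst, Prod.smul_snd, NNReal.smul_def, smul_eq_mul] <;> nlinarith

lemma mem_Outer (v : ℝ × ℝ × ℝ) : v ∈ Outer ↔
    0 ≤ v.1 ∧ 0 ≤ v.2.2 ∧ v.1 ≤ v.2.1 ∧ 2 * v.1 ≤ v.2.2 + v.2.1 := Iff.rfl

lemma Eff_sub : Eff ⊆ (Outer : Set (ℝ × ℝ × ℝ)) := by
  apply closure_minimal
  · intro v hv
    have h : span NNReal classes ≤ Outer := by
      rw [Submodule.span_le]
      rintro w ⟨K, _, _, P, hP⟩
      exact ineqs P w hP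
    exact h hv
  · have h1 : Continuous (fun v : ℝ × ℝ × ℝ => v.1) := continuous_fst
    have h2 : Continuous (fun v : ℝ × ℝ × ℝ => v.2.1) := continuous_fst.comp continuous_snd
    have h3 : Continuous (fun v : ℝ × ℝ × ℝ => v.2.2) := continuous_snd.comp continuous_snd
    exact (isClosed_le continuous_const h1).inter ((isClosed_le continuous_const h3).inter
      ((isClosed_le h1 h2).inter (isClosed_le (continuous_const.mul h1) (h3.add h2))))

lemma mem_Eff {v : ℝ × ℝ × ℝ} (P : Pt KK) (hP : P.IsClass v) : v ∈ Eff :=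
  subset_closure (Submodule.subset_span ⟨KK, inferInstance, inferInstance, P, hP⟩)

/-- faces -/
lemma face (ℓ : (ℝ × ℝ × ℝ) →ₗ[ℝ] ℝ) (S : Set (ℝ × ℝ × ℝ)) (hS : ∀ s ∈ S, 0 ≤ ℓ s)
    (x : ℝ × ℝ × ℝ) (hx : x ∈ span NNReal S) (h0 : ℓ x = 0) :
    x ∈ span NNReal {s ∈ S | ℓ s = 0} := by
  have key : ∀ x ∈ span NNReal S, 0 ≤ ℓ x ∧ (ℓ x = 0 → x ∈ span NNReal {s ∈ S | ℓ s = 0}) := by
    intro x hx
    induction hx using Submodule.span_induction with
    | mem s hs => exact ⟨hS s hs, fun h => Submodule.subset_span ⟨hs, h⟩⟩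
    | zero => exact ⟨by simp, fun _ => Submodule.zero_mem _⟩
    | add y z _ _ hy hz =>
      rw [map_add]
      refine ⟨add_nonneg hy.1 hz.1, fun h => ?_⟩
      have h1 : ℓ y = 0 := by linarith [hy.1, hz.1]
      have h2 : ℓ z = 0 := by linarith [hy.1, hz.1]
      exact Submodule.add_mem _ (hy.2 h1) (hz.2 h2)
    | smul c y _ hy =>
      have hc : (0 : ℝ) ≤ c := c.2
      have e : ℓ (c • y) = c * ℓ y := by
        rw [NNReal.smul_def, map_smul, smul_eq_mul]
      rw [e]
      refine ⟨mul_nonneg hc hy.1, fun h => ?_⟩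
      rcases mul_eq_zero.mp h with h1 | h1
      · have h2 : c = 0 := by exact_mod_cast h1
        rw [h2, zero_smul]
        exact Submodule.zero_mem _
      · exact Submodule.smul_mem _ c (hy.2 h1)
  exact (key x hx).2 h0

/-- a linear functional -/
def lin (α β γ : ℝ) : (ℝ × ℝ × ℝ) →ₗ[ℝ] ℝ where
  toFun v := α * v.1 + β * v.2.1 + γ * v.2.2
  map_add' v w := by simp only [Prod.fst_add, Prod.snd_add]; ring
  map_smul' c v := by
    simp only [Prod.smul_fst, Prod.smul_snd, smul_eq_mul, RingHom.id_apply]; ring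

lemma lin_apply (α β γ : ℝ) (v : ℝ × ℝ × ℝ) : lin α β γ v = α * v.1 + β * v.2.1 + γ * v.2.2 := rfl

/-- an extremal ray of the outer cone that lies in the cone over `S` contains an element of `S` -/
lemma exists_on_face (S : Set (ℝ × ℝ × ℝ)) (hS : ∀ s ∈ S, s ∈ Outer) (α β γ : ℝ)
    (hl : ∀ s ∈ Outer, 0 ≤ lin α β γ s) (x : ℝ × ℝ × ℝ) (hx : x ∈ span NNReal S)
    (h0 : lin α β γ x = 0) (hx0 : x ≠ 0) : ∃ s ∈ S, lin α β γ s = 0 := by
  have h := face (lin α β γ) S (fun s hs => hl s (hS s hs)) x hx h0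
  by_contra hne
  push Not at hne
  have h2 : {s ∈ S | lin α β γ s = 0} = ∅ := by
    ext s
    simp only [Set.mem_ofPred_eq, mem_empty_iff_false, iff_false, not_and]
    exact hne s
  rw [h2, Submodule.span_empty, Submodule.mem_bot] at h
  exact hx0 h

/-- The pseudo-effective cone `Eff` of the cycles of codimension two on `X = P(O(1) ⊕ O³/O(-2))` is
not simplicial. -/
theorem result : ¬ IsSimplicial Eff := by
  rintro ⟨S, hlin, hEff⟩
  have hSO : ∀ s ∈ S, s ∈ Outer := by
    intro s hs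
    apply Eff_sub
    rw [hEff]
    exact Submodule.subset_span hs
  have hA : ((0, 0, 1) : ℝ × ℝ × ℝ) ∈ span NNReal S := by
    have := mem_Eff PA class_A
    rwa [hEff] at this
  have hB : ((0, 1, 1) : ℝ × ℝ × ℝ) ∈ span NNReal S := by
    have := mem_Eff PB class_B
    rwa [hEff] at this
  have hC : ((1, 1, 1) : ℝ × ℝ × ℝ) ∈ span NNReal S := by
    have := mem_Eff PC class_C
    rwa [hEff] at this
  have hD : ((1, 2, 0) : ℝ × ℝ × ℝ) ∈ span NNReal S := by
    have := mem_Eff PD class_D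
    rwa [hEff] at this
  have hne : ∀ s ∈ S, s ≠ 0 := fun s hs => by
    have := hlin.ne_zero hs
    simpa using this
  obtain ⟨sA, hsA, kA⟩ := exists_on_face S hSO 0 1 0 (by
    intro s hs; rw [mem_Outer] at hs; rw [lin_apply]; linarith [hs.1, hs.2.2.1]) _ hA
    (by rw [lin_apply]; norm_num) (by intro h; simp [Prod.ext_iff] at h)
  obtain ⟨sC, hsC, kC⟩ := exists_on_face S hSO (-3) 2 1 (by
    intro s hs; rw [mem_Outer] at hs; rw [lin_apply]; linarith [hs.1, hs.2.2.1, hs.2.2.2]) _ hC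
    (by rw [lin_apply]; norm_num) (by intro h; simp [Prod.ext_iff] at h)
  obtain ⟨sD, hsD, kD⟩ := exists_on_face S hSO (-2) 1 2 (by
    intro s hs; rw [mem_Outer] at hs; rw [lin_apply]; linarith [hs.1, hs.2.1, hs.2.2.1, hs.2.2.2]) _ hD
    (by rw [lin_apply]; norm_num) (by intro h; simp [Prod.ext_iff] at h)
  rw [lin_apply] at kA kC kD
  have oA := hSO sA hsA
  have oC := hSO sC hsC
  have oD := hSO sD hsD
  rw [mem_Outer] at oA oC oD
  have nA := hne sA hsA
  have nC := hne sC hsC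
  have nD := hne sD hsD
  obtain ⟨rA, aA, qA⟩ := sA
  obtain ⟨rC, aC, qC⟩ := sC
  obtain ⟨rD, aD, qD⟩ := sD
  simp only at kA kC kD oA oC oD
  have eA1 : aA = 0 := by linarith
  have eA2 : rA = 0 := by linarith [oA.1, oA.2.2.1]
  have eC1 : aC = rC := by linarith [oC.2.2.1, oC.2.2.2]
  have eC2 : qC = rC := by linarith [oC.2.2.1, oC.2.2.2]
  have eD1 : qD = 0 := by linarith [oD.2.1, oD.2.2.2]
  have eD2 : aD = 2 * rD := by linarith [oD.2.1, oD.2.2.2]
  subst eA1; subst eA2; subst eC1; subst eC2; subst eD1; subst eD2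
  have hqA : qA ≠ 0 := by rintro rfl; exact nA rfl
  have hqC : qC ≠ 0 := by rintro rfl; exact nC rfl
  have hrD : rD ≠ 0 := by
    rintro rfl
    apply nD
    simp
  -- the elements of `S` on the plane `r = 0`
  have hface := face (lin 1 0 0) S (by
    intro s hs
    have := hSO s hs
    rw [mem_Outer] at this
    rw [lin_apply]
    linarith [this.1]) _ hB (by rw [lin_apply]; norm_num)
  have hsub : {s ∈ S | lin 1 0 0 s = 0} ⊆ {((0, 0, qA) : ℝ × ℝ × ℝ)} := by
    rintro ⟨r, a, q⟩ ⟨hs, hr⟩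
    rw [lin_apply] at hr
    simp only at hr
    have hr0 : r = 0 := by linarith
    subst hr0
    rw [mem_singleton_iff]
    by_contra hne2
    have hli : LinearIndependent ℝ (fun s : S => (s : ℝ × ℝ × ℝ)) := hlin
    have h1 := hli.notMem_span_image (s := {⟨_, hsA⟩, ⟨_, hsC⟩, ⟨_, hsD⟩}) (x := ⟨_, hs⟩) (by
      simp only [mem_insert_iff, mem_singleton_iff, Subtype.mk.injEq, Prod.mk.injEq, not_or]
      refine ⟨?_, ?_, ?_⟩
      · intro h; apply hne2; rw [h.2.1, h.2.2]
      · intro h; exact hqC h.1.symm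
      · intro h; exact hrD h.1.symm)
    apply h1
    rw [image_insert_eq, image_insert_eq, image_singleton]
    simp only
    rw [Submodule.mem_span_triple]
    refine ⟨(q + a) / qA, -a / qC, a / rD, ?_⟩
    ext
    · simp; field_simp; ring
    · simp; field_simp; ring
    · simp; field_simp; ring
  have hB2 := Submodule.span_mono (R := NNReal) hsub hface
  rw [Submodule.mem_span_singleton] at hB2
  obtain ⟨c, hc⟩ := hB2
  have := congrArg (fun v : ℝ × ℝ × ℝ => v.2.1) hc
  simp at this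

end Pool.Agent.Results.MP_f1b239_ag.NotSimplicial
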